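import Pool.Agent.N728.QL.Def
import Pool.Agent.N728.QL.Base
import Pool.Agent.N728.QL.CoreA

/-!
Project QL (helper728), subtask B2: functions of `v` with small integrals. The choice of the parameters, the parts
of the assembly, and the assembly (by helper999).
-/

set_option autoImplicit false

namespace Pool.Agent.N999.QL

section par

open Filter Topology

theorem floor_exp {a : ℝ} (ha : 2 ≤ a) :
    a / 2 ≤ Real.log (⌊Real.exp a⌋₊ : ℝ) ∧ Real.log (⌊Real.exp a⌋₊ : ℝ) ≤ a ∧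
      Real.exp (a / 2) ≤ (⌊Real.exp a⌋₊ : ℝ) ∧ (⌊Real.exp a⌋₊ : ℝ) ≤ Real.exp a := by
  have h1 : (⌊Real.exp a⌋₊ : ℝ) ≤ Real.exp a := Nat.floor_le (Real.exp_pos _).le
  have h2 : Real.exp a < (⌊Real.exp a⌋₊ : ℝ) + 1 := Nat.lt_floor_add_one _
  have h3 : Real.exp a = Real.exp (a / 2) * Real.exp (a / 2) := by
    rw [← Real.exp_add]
    congr 1
    ring
  have h4 : 2 ≤ Real.exp (a / 2) := by
    have := Real.add_one_le_exp (a / 2)
    linarith
  have h5 : Real.exp (a / 2) ≤ (⌊Real.exp a⌋₊ : ℝ) := by nlinarith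
  have h6 : (0 : ℝ) < (⌊Real.exp a⌋₊ : ℝ) := lt_of_lt_of_le (Real.exp_pos _) h5
  refine ⟨?_, ?_, h5, h1⟩
  · rw [Real.le_log_iff_exp_le h6]
    exact h5
  · rw [Real.log_le_iff_le_exp h6]
    exact h1

theorem lim3 (C : ℝ) : Tendsto (fun ℓ : ℝ => (ℓ ^ (1 / 2 : ℝ)) ^ C * Real.exp (-(ℓ ^ (1 / 4 : ℝ) / 4)))
    atTop (𝓝 0) := by
  have h1 := (tendsto_rpow_mul_exp_neg_mul_atTop_nhds_zero (2 * C) (1 / 4) (by norm_num)).comp
    (tendsto_rpow_atTop (show (0 : ℝ) < 1 / 4 by norm_num))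
  refine h1.congr' ?_
  filter_upwards [eventually_gt_atTop (0 : ℝ)] with ℓ hℓ
  simp only [Function.comp_apply]
  rw [← Real.rpow_mul hℓ.le, ← Real.rpow_mul hℓ.le]
  congr 2
  · ring
  · ring

theorem lim4 : Tendsto (fun ℓ : ℝ => 2 * ℓ ^ (-(107 / 3000) : ℝ) * (2 + Real.log ℓ)) atTop (𝓝 0) := by
  have h1 : Tendsto (fun ℓ : ℝ => ℓ ^ (-(107 / 3000) : ℝ)) atTop (𝓝 0) :=
    tendsto_rpow_neg_atTop (by norm_num)
  have h2 : Tendsto (fun ℓ : ℝ => Real.log ℓ / ℓ ^ (107 / 3000 : ℝ)) atTop (𝓝 0) :=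
    (isLittleO_log_rpow_atTop (by norm_num)).tendsto_div_nhds_zero
  have h3 := (h1.const_mul 4).add (h2.const_mul 2)
  simp only [mul_zero, add_zero] at h3
  refine h3.congr' ?_
  filter_upwards [eventually_gt_atTop (0 : ℝ)] with ℓ hℓ
  rw [Real.rpow_neg hℓ.le]
  have : 0 < ℓ ^ (107 / 3000 : ℝ) := Real.rpow_pos_of_pos hℓ _
  field_simp
  ring

theorem params (k0 K w0 : ℕ) (C η A0 : ℝ) (hC : 0 ≤ C) (hη : 0 < η) : ∃ B0 : ℕ, ∀ B : ℕ, B0 ≤ B →
    ∃ w y M0 : ℕ, w0 ≤ w ∧ w ≤ y ∧ 1 ≤ M0 ∧ y ^ k0 ≤ B ∧ M0 ^ k0 ≤ B ∧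
      Real.log y ≤ Real.log w ^ (100 * (K + 1)) ∧
      Real.log B ^ K ≤ Real.log w ^ (100 * (K + 1)) ∧
      1 / Real.sqrt (Real.log B) ≤ 1 / Real.log y ∧
      Real.log y ^ C * Real.exp (-(Real.log M0 / (2 * Real.log y))) ≤ η ∧
      Real.log w ^ (3 / 5 : ℝ) * Real.log y ^ (-(1 / 12) : ℝ) *
        (2 + Real.log (Real.log y)) ≤ η ∧ 1 ≤ Real.log w ∧ 1 ≤ Real.log y ∧
      A0 ≤ Real.log B ∧ Real.log B ^ (K * k0) ≤ B := by
  obtain ⟨N, hN⟩ : ∃ N : ℕ, N = 100 * (K + 1) := ⟨_, rfl⟩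
  rw [← hN]
  have t100 : Tendsto (fun ℓ : ℝ => ℓ ^ (1 / 100 : ℝ)) atTop atTop :=
    tendsto_rpow_atTop (by norm_num)
  have t2 : Tendsto (fun ℓ : ℝ => ℓ ^ (1 / 2 : ℝ)) atTop atTop := tendsto_rpow_atTop (by norm_num)
  have t4 : Tendsto (fun ℓ : ℝ => ℓ ^ (1 / 4 : ℝ)) atTop atTop := tendsto_rpow_atTop (by norm_num)
  have tl : Tendsto (fun B : ℕ => Real.log (B : ℝ)) atTop atTop :=
    Real.tendsto_log_atTop.comp tendsto_natCast_atTop_atTop
  have hev : ∀ᶠ ℓ : ℝ in atTop, 1 ≤ ℓ ∧ A0 ≤ ℓ ∧ 2 ≤ ℓ ^ (1 / 100 : ℝ) ∧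
      (w0 : ℝ) ≤ Real.exp (ℓ ^ (1 / 100 : ℝ) / 2) ∧ (k0 : ℝ) ≤ ℓ ^ (1 / 4 : ℝ) ∧
      (2 : ℝ) ^ N ≤ ℓ ^ (1 / 2 : ℝ) ∧
      (ℓ ^ (1 / 2 : ℝ)) ^ C * Real.exp (-(ℓ ^ (1 / 4 : ℝ) / 4)) ≤ η ∧
      2 * ℓ ^ (-(107 / 3000) : ℝ) * (2 + Real.log ℓ) ≤ η ∧
      ℓ ^ (K * k0) * Real.exp (-ℓ) ≤ 1 := by
    have e1 := (lim3 C).eventually (eventually_le_nhds hη)
    have e2 := lim4.eventually (eventually_le_nhds hη)
    have e3 := (Real.tendsto_pow_mul_exp_neg_atTop_nhds_zero (K * k0)).eventually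
      (eventually_le_nhds one_pos)
    have e4 := (Real.tendsto_exp_atTop.comp
      (t100.atTop_mul_const (show (0 : ℝ) < 1 / 2 by norm_num))).eventually_ge_atTop (w0 : ℝ)
    filter_upwards [eventually_ge_atTop (1 : ℝ), eventually_ge_atTop A0,
      t100.eventually_ge_atTop (2 : ℝ), e4, t4.eventually_ge_atTop (k0 : ℝ),
      t2.eventually_ge_atTop ((2 : ℝ) ^ N), e1, e2, e3] with ℓ a1 a2 a3 a4 a5 a6 a7 a8 a9
    refine ⟨a1, a2, a3, ?_, a5, a6, a7, a8, a9⟩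
    simp only [Function.comp_apply] at a4
    rwa [mul_one_div] at a4
  obtain ⟨B0, hB0⟩ := eventually_atTop.1 (tl.eventually hev)
  refine ⟨max B0 1, fun B hB => ?_⟩
  obtain ⟨a1, a2, a3, a4, a5, a6, a7, a8, a9⟩ := hB0 B ((le_max_left _ _).trans hB)
  have hB1 : 1 ≤ B := (le_max_right _ _).trans hB
  have hBpos : (0 : ℝ) < B := by exact_mod_cast hB1
  obtain ⟨ℓ, hℓ⟩ : ∃ ℓ, ℓ = Real.log (B : ℝ) := ⟨_, rfl⟩
  rw [← hℓ] at a1 a2 a3 a4 a5 a6 a7 a8 a9 ⊢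
  have hexp : Real.exp ℓ = B := by rw [hℓ, Real.exp_log hBpos]
  have hℓ0 : 0 < ℓ := by linarith
  obtain ⟨a, ha⟩ : ∃ a, a = ℓ ^ (1 / 100 : ℝ) := ⟨_, rfl⟩
  obtain ⟨b, hb⟩ : ∃ b, b = ℓ ^ (1 / 2 : ℝ) := ⟨_, rfl⟩
  obtain ⟨d, hd⟩ : ∃ d, d = ℓ ^ (1 / 4 : ℝ) := ⟨_, rfl⟩
  rw [← ha] at a3 a4
  rw [← hb] at a6 a7
  rw [← hd] at a5 a7
  have hab : a ≤ b := by
    rw [ha, hb]
    exact Real.rpow_le_rpow_of_exponent_le a1 (by norm_num)
  have hd0 : 0 < d := by rw [hd]; exact Real.rpow_pos_of_pos hℓ0 _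
  have hb2 : 2 ≤ b := a3.trans hab
  have hbb : b * b = ℓ := by
    rw [hb, ← Real.rpow_add hℓ0]
    norm_num
  have hdd : d * d = b := by
    rw [hb, hd, ← Real.rpow_add hℓ0]
    norm_num
  have hd1 : 1 ≤ d := by nlinarith
  have hm2 : 2 ≤ b * d := by nlinarith
  obtain ⟨w1, w2, w3, w4⟩ := floor_exp a3
  obtain ⟨y1, y2, y3, y4⟩ := floor_exp hb2
  obtain ⟨m1, m2, m3, m4⟩ := floor_exp hm2
  have hb1 : 1 ≤ b := by linarith
  have haN : (a / 2) ^ N = ℓ ^ (K + 1) / 2 ^ N := by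
    rw [div_pow, ha, ← Real.rpow_natCast, ← Real.rpow_mul hℓ0.le, ← Real.rpow_natCast ℓ (K + 1)]
    congr 2
    rw [hN]
    push_cast
    ring
  have hwN : ℓ ^ (K + 1) / 2 ^ N ≤ Real.log (⌊Real.exp a⌋₊ : ℝ) ^ N := by
    rw [← haN]
    exact pow_le_pow_left₀ (by linarith) w1 N
  have hbl : b ≤ ℓ := by nlinarith
  have h2N : (0 : ℝ) < 2 ^ N := by positivity
  refine ⟨⌊Real.exp a⌋₊, ⌊Real.exp b⌋₊, ⌊Real.exp (b * d)⌋₊, ?_, ?_, ?_, ?_, ?_, ?_, ?_, ?_, ?_,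
    ?_, ?_, ?_, a2, ?_⟩
  · have : (w0 : ℝ) ≤ (⌊Real.exp a⌋₊ : ℝ) := a4.trans w3
    exact_mod_cast this
  · exact Nat.floor_le_floor (Real.exp_le_exp.2 hab)
  · have : (1 : ℝ) ≤ (⌊Real.exp (b * d)⌋₊ : ℝ) := by
      refine le_trans ?_ m3
      exact Real.one_le_exp (by linarith)
    exact_mod_cast this
  · have : ((⌊Real.exp b⌋₊ : ℕ) : ℝ) ^ k0 ≤ B := by
      calc ((⌊Real.exp b⌋₊ : ℕ) : ℝ) ^ k0 ≤ Real.exp b ^ k0 :=
            pow_le_pow_left₀ (Nat.cast_nonneg _) y4 k0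
        _ = Real.exp (k0 * b) := by rw [← Real.exp_nat_mul]
        _ ≤ Real.exp ℓ := by
          apply Real.exp_le_exp.2
          have : (k0 : ℝ) ≤ b := by nlinarith
          nlinarith
        _ = B := hexp
    exact_mod_cast this
  · have : ((⌊Real.exp (b * d)⌋₊ : ℕ) : ℝ) ^ k0 ≤ B := by
      calc ((⌊Real.exp (b * d)⌋₊ : ℕ) : ℝ) ^ k0 ≤ Real.exp (b * d) ^ k0 :=
            pow_le_pow_left₀ (Nat.cast_nonneg _) m4 k0
        _ = Real.exp (k0 * (b * d)) := by rw [← Real.exp_nat_mul]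
        _ ≤ Real.exp ℓ := by
          apply Real.exp_le_exp.2
          calc (k0 : ℝ) * (b * d) ≤ d * (b * d) := mul_le_mul_of_nonneg_right a5 (by positivity)
            _ = b * (d * d) := by ring
            _ = ℓ := by rw [hdd, hbb]
        _ = B := hexp
    exact_mod_cast this
  · refine y2.trans (le_trans ?_ hwN)
    rw [le_div_iff₀ h2N]
    calc b * 2 ^ N ≤ b * b := mul_le_mul_of_nonneg_left a6 (by linarith)
      _ = ℓ := hbb
      _ = ℓ ^ 1 := (pow_one _).symm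
      _ ≤ ℓ ^ (K + 1) := pow_le_pow_right₀ a1 (by omega)
  · refine le_trans ?_ hwN
    rw [le_div_iff₀ h2N, pow_succ]
    exact mul_le_mul_of_nonneg_left (a6.trans hbl) (by positivity)
  · apply one_div_le_one_div_of_le
    · linarith
    · rw [Real.sqrt_eq_rpow, ← hb]
      exact y2
  · refine le_trans ?_ a7
    apply mul_le_mul
    · exact Real.rpow_le_rpow (by linarith) y2 hC
    · apply Real.exp_le_exp.2
      rw [neg_le_neg_iff]
      have hy0 : 0 < Real.log (⌊Real.exp b⌋₊ : ℝ) := by linarith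
      rw [div_le_div_iff₀ (by norm_num) (by linarith)]
      nlinarith
    · exact (Real.exp_pos _).le
    · positivity
  · refine le_trans ?_ a8
    have hy0 : 0 < Real.log (⌊Real.exp b⌋₊ : ℝ) := by linarith
    have e1 : Real.log (⌊Real.exp a⌋₊ : ℝ) ^ (3 / 5 : ℝ) ≤ a ^ (3 / 5 : ℝ) :=
      Real.rpow_le_rpow (by linarith) w2 (by norm_num)
    have e2 : Real.log (⌊Real.exp b⌋₊ : ℝ) ^ (-(1 / 12) : ℝ) ≤ (b / 2) ^ (-(1 / 12) : ℝ) :=
      Real.rpow_le_rpow_of_nonpos (by linarith) y1 (by norm_num)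
    have e3 : (b / 2) ^ (-(1 / 12) : ℝ) ≤ 2 * b ^ (-(1 / 12) : ℝ) := by
      rw [Real.div_rpow (by linarith) (by norm_num), div_eq_mul_inv, mul_comm]
      apply mul_le_mul_of_nonneg_right _ (by positivity)
      rw [← Real.rpow_neg (by norm_num)]
      calc (2 : ℝ) ^ (-(-(1 / 12)) : ℝ) ≤ 2 ^ (1 : ℝ) :=
            Real.rpow_le_rpow_of_exponent_le (by norm_num) (by norm_num)
        _ = 2 := Real.rpow_one _
    have e4 : a ^ (3 / 5 : ℝ) * b ^ (-(1 / 12) : ℝ) = ℓ ^ (-(107 / 3000) : ℝ) := by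
      rw [ha, hb, ← Real.rpow_mul hℓ0.le, ← Real.rpow_mul hℓ0.le, ← Real.rpow_add hℓ0]
      norm_num
    have e5 : Real.log (Real.log (⌊Real.exp b⌋₊ : ℝ)) ≤ Real.log ℓ :=
      Real.log_le_log hy0 (y2.trans hbl)
    have e6 : 0 ≤ Real.log (Real.log (⌊Real.exp b⌋₊ : ℝ)) := Real.log_nonneg (by linarith)
    have e7 : Real.log (⌊Real.exp a⌋₊ : ℝ) ^ (3 / 5 : ℝ) *
        Real.log (⌊Real.exp b⌋₊ : ℝ) ^ (-(1 / 12) : ℝ) ≤ 2 * ℓ ^ (-(107 / 3000) : ℝ) := by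
      calc _ ≤ a ^ (3 / 5 : ℝ) * (2 * b ^ (-(1 / 12) : ℝ)) :=
            mul_le_mul e1 (e2.trans e3) (Real.rpow_nonneg hy0.le _)
              (Real.rpow_nonneg (by linarith) _)
        _ = 2 * (a ^ (3 / 5 : ℝ) * b ^ (-(1 / 12) : ℝ)) := by ring
        _ = _ := by rw [e4]
    exact mul_le_mul e7 (by linarith) (by linarith) (by positivity)
  · linarith
  · linarith
  · rw [← hexp]
    have h1 := Real.exp_pos ℓ
    have h2 : ℓ ^ (K * k0) = ℓ ^ (K * k0) * Real.exp (-ℓ) * Real.exp ℓ := by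
      rw [mul_assoc, ← Real.exp_add, neg_add_cancel, Real.exp_zero, mul_one]
    rw [h2]
    nlinarith

end par

open Finset MeasureTheory Pool.Agent.N728.QL

noncomputable section

/-- the trivial consequence of the two sieve bounds in a box, weighted -/
theorem two_sums {c : ℤ} {z z1 w y M X Y : ℕ} {G : ℕ → ℕ → ℝ} {R : ℝ}
    (h : ∑ x ∈ Icc 1 X, ∑ t ∈ Icc 1 Y, rg w y x * rg w y t * lz z ((M : ℤ) * x * t + c) * G x t ≤ R)
    (h1 : ∑ x ∈ Icc 1 X, ∑ t ∈ Icc 1 Y, rg w y x * rg w y t * lz z1 ((M : ℤ) * x * t + c) * G x t ≤ R) :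
    ∑ x ∈ Icc 1 X, ∑ t ∈ Icc 1 Y, rg w y x * rg w y t * NN c z z1 (M * x * t) * G x t ≤ 2 * R := by
  have e : ∑ x ∈ Icc 1 X, ∑ t ∈ Icc 1 Y, rg w y x * rg w y t * NN c z z1 (M * x * t) * G x t =
      ∑ x ∈ Icc 1 X, ∑ t ∈ Icc 1 Y, rg w y x * rg w y t * lz z1 ((M : ℤ) * x * t + c) * G x t +
      ∑ x ∈ Icc 1 X, ∑ t ∈ Icc 1 Y, rg w y x * rg w y t * lz z ((M : ℤ) * x * t + c) * G x t := by
    rw [← sum_add_distrib]
    refine sum_congr rfl fun x _ => ?_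
    rw [← sum_add_distrib]
    refine sum_congr rfl fun t _ => ?_
    unfold NN
    push_cast
    ring
  rw [e]
  linarith

theorem box_le {a V R : ℝ} {M X Y : ℕ} (hM : 1 ≤ M) (ha : 0 ≤ a) (hV : 0 ≤ V)
    (hXY : (X : ℝ) * Y ≤ R / M) :
    a * ((M : ℝ) / Nat.totient M) * V * ((X : ℝ) * Y) ≤ a * R * (V * (1 / Nat.totient M)) := by
  have hM0 : (0 : ℝ) < M := by exact_mod_cast hM
  have hφ : (0 : ℝ) < Nat.totient M := by exact_mod_cast Nat.totient_pos.2 hM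
  calc a * ((M : ℝ) / Nat.totient M) * V * ((X : ℝ) * Y)
      ≤ a * ((M : ℝ) / Nat.totient M) * V * (R / M) := by
        apply mul_le_mul_of_nonneg_left hXY
        positivity
    _ = a * R * (V * (1 / Nat.totient M)) := by
        field_simp

/-- the bound of `AA` for one `M` and one window -/
theorem AA_one {c : ℤ} {z z1 w y M B T j : ℕ} {ρ CU : ℝ} (hCU : 0 < CU) (hM : 1 ≤ M)
    (hU : ∀ z' ∈ ({z, z1} : Finset ℕ), ∀ X Y : ℕ, B ≤ X ^ 3 → X ≤ B ^ 2 → B ≤ Y ^ 3 → Y ≤ B ^ 2 →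
      ∑ x ∈ Icc 1 X, ∑ t ∈ Icc 1 Y, rg w y x * rg w y t * lz z' ((M : ℤ) * x * t + c) ≤
        CU * ((M : ℝ) / Nat.totient M) * VW w y ^ 2 * ((X : ℝ) * Y))
    (r1 : B ≤ ⌊(T : ℝ) / ρ ^ (j + 1)⌋₊ ^ 3) (r2 : ⌊(T : ℝ) / ρ ^ (j + 1)⌋₊ ≤ B ^ 2)
    (r3 : B ≤ ⌊((4 * B : ℕ) : ℝ) * ρ ^ (j + 1) / M⌋₊ ^ 3)
    (r4 : ⌊((4 * B : ℕ) : ℝ) * ρ ^ (j + 1) / M⌋₊ ≤ B ^ 2)
    (r5 : (⌊(T : ℝ) / ρ ^ (j + 1)⌋₊ : ℝ) * ⌊((4 * B : ℕ) : ℝ) * ρ ^ (j + 1) / M⌋₊ ≤ T * (4 * B) / M) :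
    AA (NN c z z1) w y ρ T (4 * B) M j ≤
      8 * CU * ((T : ℝ) * B) * (VW w y ^ 2 * (1 / Nat.totient M)) := by
  have h := hU z (by simp) _ _ r1 r2 r3 r4
  have h1 := hU z1 (by simp) _ _ r1 r2 r3 r4
  have hb := box_le (a := CU) (V := VW w y ^ 2) hM hCU.le (by positivity) r5
  have h2 := two_sums (c := c) (z := z) (z1 := z1) (w := w) (y := y) (M := M)
    (X := ⌊(T : ℝ) / ρ ^ (j + 1)⌋₊) (Y := ⌊((4 * B : ℕ) : ℝ) * ρ ^ (j + 1) / M⌋₊) (G := fun _ _ => 1)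
    (R := CU * (T * (4 * B)) * (VW w y ^ 2 * (1 / Nat.totient M)))
    (by simp only [mul_one]; exact h.trans hb) (by simp only [mul_one]; exact h1.trans hb)
  simp only [mul_one] at h2
  unfold AA
  refine h2.trans (le_of_eq ?_)
  ring

/-- the orbit weight -/
def ph (q u0 v0 T B : ℕ) (g : ℝ → ℝ) (u v : ℕ) : ℝ :=
  if u ≤ T ∧ u ≡ u0 [MOD q] ∧ v ≡ v0 [MOD q] ∧ v ≤ 4 * B then g (Real.log v) / 2 else 0

theorem Dv_dvd {ρ : ℝ} {M j m : ℕ} (hm : m ∈ Dv ρ M j) : m ∣ M := by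
  unfold Dv at hm
  exact (Nat.mem_divisors.1 (mem_filter.1 hm).1).1

/-- elements of a window are at most `ρ ^ (j + 1)` -/
theorem Dv_lt {ρ : ℝ} {M j m : ℕ} (hM : 1 ≤ M) (hρ : 1 < ρ) (hm : m ∈ Dv ρ M j) :
    (m : ℝ) < ρ ^ (j + 1) := by
  have hmM := Dv_dvd hm
  have hm1 : 1 ≤ m := Nat.pos_of_dvd_of_pos hmM hM
  have hmr : (1 : ℝ) ≤ m := by exact_mod_cast hm1
  have hjw : jw ρ m = j := by
    unfold Dv at hm
    exact (mem_filter.1 hm).2
  have hlogρ : 0 < Real.log ρ := Real.log_pos hρ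
  unfold jw at hjw
  have h2 := Nat.lt_floor_add_one (Real.log m / Real.log ρ)
  rw [hjw, div_lt_iff₀ hlogρ] at h2
  have h3 : Real.log m < Real.log (ρ ^ (j + 1)) := by rw [Real.log_pow]; push_cast; exact h2
  exact (Real.log_lt_log_iff (by linarith) (by positivity)).1 h3

theorem cop_of_dvd_PP {q w y m : ℕ} (hq : 1 ≤ q) (hqw : q ≤ w) (hm : m ∣ PP w y) : Nat.Coprime q m := by
  refine Nat.Coprime.symm (Nat.coprime_of_dvd ?_)
  intro p hp hpm hpq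
  have h1 := (dvd_PP hp (hpm.trans hm)).1
  have h2 := Nat.le_of_dvd hq hpq
  omega

/-- the sum over one class of the window -/
theorem class_sum {q u0 v0 T B w y M j x t α : ℕ} {ρ : ℝ} {g : ℝ → ℝ} (hq : 1 ≤ q) (hqw : q ≤ w)
    (hM : M ∣ PP w y) (hM1 : 1 ≤ M) (hρ : 1 < ρ) (hB : 1 ≤ B)
    (hg : ∀ s, Real.log (4 * (B : ℝ)) < s → g s = 0)
    (hx : x ∈ Icc 1 ⌊(T : ℝ) / ρ ^ (j + 1)⌋₊) (ht : 1 ≤ t) :
    (∑ m ∈ (Dv ρ M j).filter (fun m => m ≡ α [MOD q]), ph q u0 v0 T B g (m * x) (M / m * t)) ^ 2 ≤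
      (1 / 4) * (∑ m ∈ (Dv ρ M j).filter (fun m => m ≡ α [MOD q]),
        g (Real.log M + Real.log t - Real.log m)) ^ 2 := by
  classical
  set D := (Dv ρ M j).filter (fun m => m ≡ α [MOD q]) with hD
  have hρj : 0 < ρ ^ (j + 1) := by positivity
  have hpt : ∀ m ∈ D, ph q u0 v0 T B g (m * x) (M / m * t) =
      if (m * x ≡ u0 [MOD q] ∧ M / m * t ≡ v0 [MOD q]) then
        g (Real.log M + Real.log t - Real.log m) / 2 else 0 := by
    intro m hm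
    have hmD := (mem_filter.1 hm).1
    have hmM := Dv_dvd hmD
    have hm1 : 1 ≤ m := Nat.pos_of_dvd_of_pos hmM hM1
    have hmr : (0 : ℝ) < m := by exact_mod_cast hm1
    have hMr : (0 : ℝ) < M := by exact_mod_cast hM1
    have htr : (0 : ℝ) < t := by exact_mod_cast ht
    have hmx : m * x ≤ T := by
      rw [mem_Icc] at hx
      have h1 : (x : ℝ) ≤ (T : ℝ) / ρ ^ (j + 1) :=
        le_trans (by exact_mod_cast hx.2) (Nat.floor_le (by positivity))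
      have h2 : (m : ℝ) * x ≤ T := by
        have h3 := (Dv_lt hM1 hρ hmD).le
        have h4 : (x : ℝ) * ρ ^ (j + 1) ≤ T := by
          rw [le_div_iff₀ hρj] at h1
          exact h1
        have h5 : (m : ℝ) * x ≤ ρ ^ (j + 1) * x := mul_le_mul_of_nonneg_right h3 (Nat.cast_nonneg x)
        linarith
      exact_mod_cast h2
    have hlog : Real.log ((M / m * t : ℕ) : ℝ) = Real.log M + Real.log t - Real.log m := by
      rw [Nat.cast_mul, Nat.cast_div hmM hmr.ne', Real.log_mul (by positivity) htr.ne',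
        Real.log_div hMr.ne' hmr.ne']
      ring
    unfold ph
    by_cases hP : m * x ≡ u0 [MOD q] ∧ M / m * t ≡ v0 [MOD q]
    · rw [if_pos hP]
      by_cases h4 : M / m * t ≤ 4 * B
      · rw [if_pos ⟨hmx, hP.1, hP.2, h4⟩, hlog]
      · rw [if_neg (fun h => h4 h.2.2.2)]
        have h5 : Real.log (4 * (B : ℝ)) < Real.log M + Real.log t - Real.log m := by
          rw [← hlog]
          apply Real.log_lt_log
          · have : (1 : ℝ) ≤ B := by exact_mod_cast hB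
            linarith
          · have : 4 * B < M / m * t := not_le.1 h4
            exact_mod_cast this
        rw [hg _ h5]
        ring
    · rw [if_neg hP, if_neg]
      intro h
      exact hP ⟨h.2.1, h.2.2.1⟩
  rw [sum_congr rfl hpt]
  have hinv : ∀ m ∈ D, ∀ m' ∈ D, (m * x ≡ u0 [MOD q] ∧ M / m * t ≡ v0 [MOD q]) →
      (m' * x ≡ u0 [MOD q] ∧ M / m' * t ≡ v0 [MOD q]) := by
    intro m hm m' hm' hP
    have hmM := Dv_dvd (mem_filter.1 hm).1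
    have hmM' := Dv_dvd (mem_filter.1 hm').1
    have hmm : m ≡ m' [MOD q] := ((mem_filter.1 hm).2).trans ((mem_filter.1 hm').2).symm
    have hdd : M / m ≡ M / m' [MOD q] := by
      have h1 : m * (M / m) ≡ m * (M / m') [MOD q] := by
        have e1 : m * (M / m) = M := Nat.mul_div_cancel' hmM
        have e2 : m' * (M / m') = M := Nat.mul_div_cancel' hmM'
        calc m * (M / m) = m' * (M / m') := by rw [e1, e2]
          _ ≡ m * (M / m') [MOD q] := (hmm.symm.mul_right _)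
      exact Nat.ModEq.cancel_left_of_coprime (cop_of_dvd_PP hq hqw (hmM.trans hM)) h1
    exact ⟨(hmm.symm.mul_right x).trans hP.1, (hdd.symm.mul_right t).trans hP.2⟩
  by_cases hex : ∃ m ∈ D, (m * x ≡ u0 [MOD q] ∧ M / m * t ≡ v0 [MOD q])
  · obtain ⟨m0, hm0, hP0⟩ := hex
    have e : ∑ m ∈ D, (if (m * x ≡ u0 [MOD q] ∧ M / m * t ≡ v0 [MOD q]) then
        g (Real.log M + Real.log t - Real.log m) / 2 else 0) =
        (∑ m ∈ D, g (Real.log M + Real.log t - Real.log m)) / 2 := by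
      rw [sum_div]
      refine sum_congr rfl fun m hm => ?_
      rw [if_pos (hinv m0 hm0 m hm hP0)]
    rw [e]
    apply le_of_eq
    ring
  · have e : ∑ m ∈ D, (if (m * x ≡ u0 [MOD q] ∧ M / m * t ≡ v0 [MOD q]) then
        g (Real.log M + Real.log t - Real.log m) / 2 else 0) = 0 := by
      apply sum_eq_zero
      intro m hm
      rw [if_neg (fun h => hex ⟨m, hm, h⟩)]
    rw [e, zero_pow (by norm_num)]
    positivity

/-- the sum over the window -/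
theorem window_sum {q u0 v0 T B w y M j x t : ℕ} {ρ : ℝ} {g : ℝ → ℝ} (hq : 1 ≤ q) (hqw : q ≤ w)
    (hM : M ∣ PP w y) (hM1 : 1 ≤ M) (hρ : 1 < ρ) (hB : 1 ≤ B)
    (hg : ∀ s, Real.log (4 * (B : ℝ)) < s → g s = 0)
    (hx : x ∈ Icc 1 ⌊(T : ℝ) / ρ ^ (j + 1)⌋₊) (ht : 1 ≤ t) :
    (∑ m ∈ Dv ρ M j, ph q u0 v0 T B g (m * x) (M / m * t)) ^ 2 ≤
      (q / 4) * ∑ α ∈ range q, (∑ m ∈ (Dv ρ M j).filter (fun m => m ≡ α [MOD q]),
        g (Real.log M + Real.log t - Real.log m)) ^ 2 := by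
  classical
  have e : ∑ m ∈ Dv ρ M j, ph q u0 v0 T B g (m * x) (M / m * t) =
      ∑ α ∈ range q, ∑ m ∈ (Dv ρ M j).filter (fun m => m ≡ α [MOD q]),
        ph q u0 v0 T B g (m * x) (M / m * t) := by
    rw [← sum_fiberwise_of_maps_to (s := Dv ρ M j) (t := range q) (g := fun m => m % q)
      (fun m _ => mem_range.2 (Nat.mod_lt _ hq))]
    refine sum_congr rfl fun α hα => ?_
    apply sum_congr _ (fun _ _ => rfl)
    ext m
    simp only [mem_filter, and_congr_right_iff]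
    intro _
    unfold Nat.ModEq
    rw [Nat.mod_eq_of_lt (mem_range.1 hα)]
  rw [e]
  have hcs := sq_sum_le_card_mul_sum_sq (s := range q)
    (f := fun α => ∑ m ∈ (Dv ρ M j).filter (fun m => m ≡ α [MOD q]),
        ph q u0 v0 T B g (m * x) (M / m * t))
  rw [card_range] at hcs
  refine hcs.trans ?_
  have h2 : ∑ α ∈ range q, (∑ m ∈ (Dv ρ M j).filter (fun m => m ≡ α [MOD q]),
        ph q u0 v0 T B g (m * x) (M / m * t)) ^ 2 ≤
      ∑ α ∈ range q, (1 / 4) * (∑ m ∈ (Dv ρ M j).filter (fun m => m ≡ α [MOD q]),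
        g (Real.log M + Real.log t - Real.log m)) ^ 2 :=
    sum_le_sum fun α _ => class_sum hq hqw hM hM1 hρ hB hg hx ht
  rw [← mul_sum] at h2
  calc (q : ℝ) * ∑ α ∈ range q, (∑ m ∈ (Dv ρ M j).filter (fun m => m ≡ α [MOD q]),
        ph q u0 v0 T B g (m * x) (M / m * t)) ^ 2
      ≤ q * ((1 / 4) * ∑ α ∈ range q, (∑ m ∈ (Dv ρ M j).filter (fun m => m ≡ α [MOD q]),
        g (Real.log M + Real.log t - Real.log m)) ^ 2) :=
        mul_le_mul_of_nonneg_left h2 (Nat.cast_nonneg q)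
    _ = _ := by ring

/-- the bound of `DD` for one `M` and one window -/
theorem DD_one {c : ℤ} {z z1 q u0 v0 w y M B T j : ℕ} {ρ CD : ℝ} {g : ℝ → ℝ} (hCD : 0 < CD) (hq : 1 ≤ q)
    (hqw : q ≤ w) (hM : M ∣ PP w y) (hM1 : 1 ≤ M) (hρ : 1 < ρ) (hB : 1 ≤ B)
    (hg : ∀ s, Real.log (4 * (B : ℝ)) < s → g s = 0)
    (hU : ∀ z' ∈ ({z, z1} : Finset ℕ), ∀ X Y : ℕ, B ≤ X ^ 3 → X ≤ B ^ 2 → B ≤ Y ^ 3 → Y ≤ B ^ 2 → ∀ α : ℕ,
      ∑ x ∈ Icc 1 X, ∑ t ∈ Icc 1 Y, rg w y x * rg w y t * lz z' ((M : ℤ) * x * t + c) *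
        (∑ m ∈ (Dv ρ M j).filter (fun m => m ≡ α [MOD q]), g (Real.log M + Real.log t - Real.log m)) ^ 2 ≤
        CD * ((M : ℝ) / Nat.totient M) * VW w y ^ 2 * ((X : ℝ) * Y) *
          ((∫ s : ℝ, (∑ m ∈ (Dv ρ M j).filter (fun m => m ≡ α [MOD q]), g (s - Real.log m)) ^ 2) +
            1 / Real.log B))
    (r1 : B ≤ ⌊(T : ℝ) / ρ ^ (j + 1)⌋₊ ^ 3) (r2 : ⌊(T : ℝ) / ρ ^ (j + 1)⌋₊ ≤ B ^ 2)
    (r3 : B ≤ ⌊((4 * B : ℕ) : ℝ) * ρ ^ (j + 1) / M⌋₊ ^ 3)
    (r4 : ⌊((4 * B : ℕ) : ℝ) * ρ ^ (j + 1) / M⌋₊ ≤ B ^ 2)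
    (r5 : (⌊(T : ℝ) / ρ ^ (j + 1)⌋₊ : ℝ) * ⌊((4 * B : ℕ) : ℝ) * ρ ^ (j + 1) / M⌋₊ ≤ T * (4 * B) / M) :
    DD (ph q u0 v0 T B g) (NN c z z1) w y ρ T (4 * B) M j ≤
      2 * CD * q * ((T : ℝ) * B) * (VW w y ^ 2 * ∑ α ∈ range q, (1 / (Nat.totient M : ℝ)) *
        ((∫ s : ℝ, (∑ m ∈ (Dv ρ M j).filter (fun m => m ≡ α [MOD q]), g (s - Real.log m)) ^ 2) +
            1 / Real.log B)) := by
  classical
  set X := ⌊(T : ℝ) / ρ ^ (j + 1)⌋₊ with hX
  set Y := ⌊((4 * B : ℕ) : ℝ) * ρ ^ (j + 1) / M⌋₊ with hY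
  have hB1 : (1 : ℝ) ≤ B := by exact_mod_cast hB
  have hlogB : 0 ≤ Real.log B := Real.log_nonneg hB1
  -- step 1
  have s1 : DD (ph q u0 v0 T B g) (NN c z z1) w y ρ T (4 * B) M j ≤
      ∑ x ∈ Icc 1 X, ∑ t ∈ Icc 1 Y, rg w y x * rg w y t * NN c z z1 (M * x * t) *
        ((q / 4) * ∑ α ∈ range q, (∑ m ∈ (Dv ρ M j).filter (fun m => m ≡ α [MOD q]),
        g (Real.log M + Real.log t - Real.log m)) ^ 2) := by
    unfold DD
    refine sum_le_sum fun x hx => sum_le_sum fun t ht => ?_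
    apply mul_le_mul_of_nonneg_left
    · exact window_sum hq hqw hM hM1 hρ hB hg hx (mem_Icc.1 ht).1
    · exact mul_nonneg (mul_nonneg (rg_nonneg _ _ _) (rg_nonneg _ _ _)) (NN_nonneg _ _ _ _)
  refine s1.trans ?_
  -- step 2: interchange
  have s2 : ∑ x ∈ Icc 1 X, ∑ t ∈ Icc 1 Y, rg w y x * rg w y t * NN c z z1 (M * x * t) *
        ((q / 4) * ∑ α ∈ range q, (∑ m ∈ (Dv ρ M j).filter (fun m => m ≡ α [MOD q]),
        g (Real.log M + Real.log t - Real.log m)) ^ 2) =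
      (q / 4) * ∑ α ∈ range q, ∑ x ∈ Icc 1 X, ∑ t ∈ Icc 1 Y,
        rg w y x * rg w y t * NN c z z1 (M * x * t) *
        (∑ m ∈ (Dv ρ M j).filter (fun m => m ≡ α [MOD q]),
        g (Real.log M + Real.log t - Real.log m)) ^ 2 := by
    rw [mul_sum]
    simp only [mul_sum]
    rw [sum_comm (s := range q)]
    refine sum_congr rfl fun x _ => ?_
    rw [sum_comm (s := range q)]
    refine sum_congr rfl fun t _ => ?_
    refine sum_congr rfl fun α _ => ?_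
    ring
  rw [s2]
  have s3 : ∀ α ∈ range q, ∑ x ∈ Icc 1 X, ∑ t ∈ Icc 1 Y,
        rg w y x * rg w y t * NN c z z1 (M * x * t) *
        (∑ m ∈ (Dv ρ M j).filter (fun m => m ≡ α [MOD q]),
        g (Real.log M + Real.log t - Real.log m)) ^ 2 ≤
      2 * (CD * (T * (4 * B)) * (VW w y ^ 2 * (1 / Nat.totient M)) *
        ((∫ s : ℝ, (∑ m ∈ (Dv ρ M j).filter (fun m => m ≡ α [MOD q]), g (s - Real.log m)) ^ 2) +
            1 / Real.log B)) := by
    intro α _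
    have hb := box_le (a := CD) (V := VW w y ^ 2) hM1 hCD.le (by positivity) r5
    have hI : 0 ≤ (∫ s : ℝ, (∑ m ∈ (Dv ρ M j).filter (fun m => m ≡ α [MOD q]), g (s - Real.log m)) ^ 2) +
            1 / Real.log B := by
      apply add_nonneg
      · exact integral_nonneg fun s => sq_nonneg _
      · positivity
    exact two_sums (G := fun x t => (∑ m ∈ (Dv ρ M j).filter (fun m => m ≡ α [MOD q]),
        g (Real.log M + Real.log t - Real.log m)) ^ 2)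
      ((hU z (by simp) X Y r1 r2 r3 r4 α).trans (mul_le_mul_of_nonneg_right hb hI))
      ((hU z1 (by simp) X Y r1 r2 r3 r4 α).trans (mul_le_mul_of_nonneg_right hb hI))
  calc (q / 4 : ℝ) * ∑ α ∈ range q, ∑ x ∈ Icc 1 X, ∑ t ∈ Icc 1 Y,
        rg w y x * rg w y t * NN c z z1 (M * x * t) *
        (∑ m ∈ (Dv ρ M j).filter (fun m => m ≡ α [MOD q]),
        g (Real.log M + Real.log t - Real.log m)) ^ 2
      ≤ (q / 4 : ℝ) * ∑ α ∈ range q, 2 * (CD * (T * (4 * B)) * (VW w y ^ 2 * (1 / Nat.totient M)) *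
        ((∫ s : ℝ, (∑ m ∈ (Dv ρ M j).filter (fun m => m ≡ α [MOD q]), g (s - Real.log m)) ^ 2) +
            1 / Real.log B)) := mul_le_mul_of_nonneg_left (sum_le_sum s3) (by positivity)
    _ = _ := by
        simp only [mul_sum]
        refine sum_congr rfl fun α _ => ?_
        ring

theorem lhs_eq (q u0 v0 T B : ℕ) (g : ℝ → ℝ) (E : ℕ → ℕ → ℝ) :
    ∑ u ∈ (Icc 1 T).filter (fun u => u ≡ u0 [MOD q]), ∑ v ∈ (Icc 1 (4 * B)).filter (fun v => v ≡ v0 [MOD q]),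
      g (Real.log v) * E u v =
    2 * ∑ u ∈ Icc 1 T, ∑ v ∈ Icc 1 (4 * B), ph q u0 v0 T B g u v * E u v := by
  rw [sum_filter, mul_sum]
  refine sum_congr rfl fun u hu => ?_
  by_cases h : u ≡ u0 [MOD q]
  · rw [if_pos h, sum_filter, mul_sum]
    refine sum_congr rfl fun v hv => ?_
    by_cases h2 : v ≡ v0 [MOD q]
    · unfold ph
      rw [if_pos h2, if_pos ⟨(mem_Icc.1 hu).2, h, h2, (mem_Icc.1 hv).2⟩]
      ring
    · unfold ph
      rw [if_neg h2, if_neg (fun h3 => h2 h3.2.2.1)]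
      ring
  · rw [if_neg h, mul_sum]
    symm
    apply sum_eq_zero
    intro v _
    unfold ph
    rw [if_neg (fun h3 => h h3.2.1)]
    ring

open Classical in
theorem bad_sum {c : ℤ} {z z1 T B w y M0 : ℕ} {ρ R : ℝ}
    (h : ∑ u ∈ Icc 1 T, ∑ v ∈ Icc 1 (4 * B),
      (if Bad T w y M0 ρ u v then lz z ((u : ℤ) * v + c) else 0) ≤ R)
    (h1 : ∑ u ∈ Icc 1 T, ∑ v ∈ Icc 1 (4 * B),
      (if Bad T w y M0 ρ u v then lz z1 ((u : ℤ) * v + c) else 0) ≤ R) :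
    ∑ u ∈ Icc 1 T, ∑ v ∈ Icc 1 (4 * B),
      (if Bad T w y M0 ρ u v then NN c z z1 (u * v) else 0) ≤ 2 * R := by
  have e : ∑ u ∈ Icc 1 T, ∑ v ∈ Icc 1 (4 * B),
      (if Bad T w y M0 ρ u v then NN c z z1 (u * v) else 0) =
      ∑ u ∈ Icc 1 T, ∑ v ∈ Icc 1 (4 * B),
      (if Bad T w y M0 ρ u v then lz z1 ((u : ℤ) * v + c) else 0) +
      ∑ u ∈ Icc 1 T, ∑ v ∈ Icc 1 (4 * B),
      (if Bad T w y M0 ρ u v then lz z ((u : ℤ) * v + c) else 0) := by
    rw [← sum_add_distrib]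
    refine sum_congr rfl fun x _ => ?_
    rw [← sum_add_distrib]
    refine sum_congr rfl fun t _ => ?_
    split_ifs
    · unfold NN
      push_cast
      rfl
    · ring
  rw [e]
  linarith

theorem sqrt_comb {A D a d S e : ℝ} (hA : A ≤ a * S) (hD : D ≤ d * S) (hS : 0 ≤ S) (ha : 0 ≤ a)
    (had : a * d ≤ e ^ 2) (he : 0 ≤ e) : √A * √D ≤ e * S := by
  have h1 : √A * √D ≤ √(a * S) * √(d * S) :=
    mul_le_mul (Real.sqrt_le_sqrt hA) (Real.sqrt_le_sqrt hD) (Real.sqrt_nonneg _) (Real.sqrt_nonneg _)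
  have h2 : √(a * S) * √(d * S) = √((a * S) * (d * S)) := (Real.sqrt_mul (by positivity) _).symm
  have h3 : (a * S) * (d * S) ≤ (e * S) ^ 2 := by
    have : (a * S) * (d * S) = (a * d) * S ^ 2 := by ring
    rw [this, mul_pow]
    exact mul_le_mul_of_nonneg_right had (sq_nonneg S)
  have h4 : √((a * S) * (d * S)) ≤ e * S := by
    rw [Real.sqrt_le_left (by positivity)]
    exact h3
  linarith [h2.le, h2.ge]

theorem root_exists (B k : ℕ) (hk : 1 ≤ k) : ∃ z1 : ℕ, z1 ^ k ≤ B ∧ B < (z1 + 1) ^ k := by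
  classical
  refine ⟨Nat.findGreatest (fun z => z ^ k ≤ B) B, ?_, ?_⟩
  · apply Nat.findGreatest_spec (P := fun z => z ^ k ≤ B) (m := 0) (Nat.zero_le _)
    rw [Nat.zero_pow (by omega)]
    exact Nat.zero_le _
  · by_contra hcon
    rw [not_lt] at hcon
    by_cases h : Nat.findGreatest (fun z => z ^ k ≤ B) B + 1 ≤ B
    · exact Nat.findGreatest_is_greatest (P := fun z => z ^ k ≤ B) (Nat.lt_succ_self _) h hcon
    · have h1 : B < Nat.findGreatest (fun z => z ^ k ≤ B) B + 1 := not_le.1 h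
      have h2 : Nat.findGreatest (fun z => z ^ k ≤ B) B + 1 ≤
          (Nat.findGreatest (fun z => z ^ k ≤ B) B + 1) ^ k := Nat.le_self_pow (by omega) _
      omega

/-- sums over `M` and the windows -/
theorem MJ_sum {w y M0 : ℕ} {ρ R : ℝ} {f h : ℕ → ℕ → ℝ} (hR : 0 ≤ R) (hh : ∀ M j, 0 ≤ h M j)
    (hf : ∀ M ∈ (PP w y).divisors.filter (fun M => M ≤ M0), ∀ j ∈ Wn ρ M,
      f M j ≤ R * (VW w y ^ 2 * h M j)) :
    ∑ M ∈ (PP w y).divisors.filter (fun M => M ≤ M0), ∑ j ∈ Wn ρ M, f M j ≤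
      R * (VW w y ^ 2 * ∑ M ∈ (PP w y).divisors, ∑ j ∈ Wn ρ M, h M j) := by
  have h1 : ∑ M ∈ (PP w y).divisors.filter (fun M => M ≤ M0), ∑ j ∈ Wn ρ M, f M j ≤
      ∑ M ∈ (PP w y).divisors.filter (fun M => M ≤ M0), ∑ j ∈ Wn ρ M, R * (VW w y ^ 2 * h M j) :=
    sum_le_sum fun M hM => sum_le_sum fun j hj => hf M hM j hj
  have h2 : ∑ M ∈ (PP w y).divisors.filter (fun M => M ≤ M0), ∑ j ∈ Wn ρ M, R * (VW w y ^ 2 * h M j) ≤
      ∑ M ∈ (PP w y).divisors, ∑ j ∈ Wn ρ M, R * (VW w y ^ 2 * h M j) := by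
    apply sum_le_sum_of_subset_of_nonneg (filter_subset _ _)
    intro M _ _
    exact sum_nonneg fun j _ => mul_nonneg hR (mul_nonneg (sq_nonneg _) (hh M j))
  refine h1.trans (h2.trans (le_of_eq ?_))
  simp only [mul_sum]

/-- the numbers -/
theorem nums {CU CD CQ CE q δ η x0 W e EK l ll lB a d : ℝ} (hCU : 0 < CU) (hCD : 0 < CD) (hCQ : 0 < CQ)
    (hq : 1 ≤ q) (hx0 : 0 < x0) (hW : W = 16 * q ^ 2 * CU * CD * (CQ + 1))
    (hη1 : η ≤ 1 / x0) (hη2 : η ≤ e ^ 2 / (W * x0)) (hEK0 : 0 ≤ EK) (hl : 0 ≤ l) (hEK : EK = x0 * l)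
    (hll : 0 ≤ ll) (hlη : l * (2 + ll) ≤ η) (hlB : 1 ≤ lB)
    (ha : a = 8 * CU * EK) (hd : d = 2 * CD * q * (q * (CQ * (1 + ll)) + q * (EK * (1 / lB)))) :
    a * d ≤ e ^ 2 := by
  have hW0 : 0 < W := by rw [hW]; positivity
  have hX1 : x0 * η ≤ 1 := by
    rw [le_div_iff₀ hx0] at hη1
    linarith
  have hX2 : W * (x0 * η) ≤ e ^ 2 := by
    rw [le_div_iff₀ (by positivity)] at hη2
    linarith
  have h1 : EK * (2 + ll) ≤ x0 * η := by
    rw [hEK]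
    calc x0 * l * (2 + ll) = x0 * (l * (2 + ll)) := by ring
      _ ≤ x0 * η := mul_le_mul_of_nonneg_left hlη hx0.le
  have hη0 : 0 ≤ x0 * η := le_trans (by positivity) h1
  have h2 : EK ≤ x0 * η := le_trans (by nlinarith) h1
  have h3 : EK * (1 + ll) ≤ x0 * η := le_trans (by nlinarith) h1
  have h4 : EK * (1 / lB) ≤ EK := by
    apply mul_le_of_le_one_right hEK0
    rw [div_le_one (by linarith)]
    exact hlB
  have h5 : EK * EK ≤ x0 * η := by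
    calc EK * EK ≤ (x0 * η) * 1 := mul_le_mul h2 (h2.trans hX1) hEK0 hη0
      _ = _ := mul_one _
  have h6 : EK * (EK * (1 / lB)) ≤ x0 * η := (mul_le_mul_of_nonneg_left h4 hEK0).trans h5
  have e1 : a * d = 16 * q ^ 2 * CU * CD * (CQ * (EK * (1 + ll)) + EK * (EK * (1 / lB))) := by
    rw [ha, hd]
    ring
  rw [e1]
  have h7 : CQ * (EK * (1 + ll)) + EK * (EK * (1 / lB)) ≤ (CQ + 1) * (x0 * η) := by
    have := mul_le_mul_of_nonneg_left h3 hCQ.le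
    linarith
  calc 16 * q ^ 2 * CU * CD * (CQ * (EK * (1 + ll)) + EK * (EK * (1 / lB)))
      ≤ 16 * q ^ 2 * CU * CD * ((CQ + 1) * (x0 * η)) := mul_le_mul_of_nonneg_left h7 (by positivity)
    _ = W * (x0 * η) := by rw [hW]; ring
    _ ≤ e ^ 2 := hX2

theorem t_B2 (hORB : S_ORB) (hEK : S_EK) (hMER : S_MER) (hU1 : ∀ c : ℤ, c ≠ 0 → S_U1 c)
    (hBAD : ∀ c : ℤ, c ≠ 0 → S_BAD c) (hQB : S_QB) (hDS : ∀ c : ℤ, c ≠ 0 → S_DS c) :
    ∀ c : ℤ, c ≠ 0 → S_B2 c := by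
  intro c hc
  obtain ⟨κ, hκ1, hC⟩ := orbC hORB hMER
  obtain ⟨CU, hCU, kU, BU, hU⟩ := hU1 c hc
  obtain ⟨CB, hCB, kB, BB, hBd⟩ := hBAD c hc
  obtain ⟨CD, hCD, kD, BD, hD⟩ := hDS c hc
  obtain ⟨CE, hCE, hE⟩ := hEK
  obtain ⟨k, hk⟩ : ∃ k, k = 16 + kU + kB + kD := ⟨_, rfl⟩
  intro q z K ε hq hz hε
  obtain ⟨CQ, hCQ, wQ, hQ⟩ := hQB q (100 * (K + 1)) hq
  obtain ⟨BC, hBC⟩ := hC c k z (by omega)
  have hk1 : (1 : ℝ) ≤ k := by exact_mod_cast (by omega : 1 ≤ k)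
  have hκk : 0 < κ * k := by positivity
  obtain ⟨δ, hδ⟩ : ∃ δ : ℝ, δ = min 1 (ε / (96 * (κ * k) * CB)) := ⟨_, rfl⟩
  have hδ0 : 0 < δ := by rw [hδ]; exact lt_min one_pos (by positivity)
  have hδ1 : δ ≤ 1 := by rw [hδ]; exact min_le_left _ _
  have hδ2 : δ ≤ ε / (96 * (κ * k) * CB) := by rw [hδ]; exact min_le_right _ _
  obtain ⟨x0, hx0⟩ : ∃ x0 : ℝ, x0 = CE * δ ^ (-(1 / 2) : ℝ) := ⟨_, rfl⟩
  have hx00 : 0 < x0 := by rw [hx0]; positivity
  obtain ⟨e, he⟩ : ∃ e : ℝ, e = ε / (4 * (κ * k)) := ⟨_, rfl⟩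
  have he0 : 0 < e := by rw [he]; positivity
  have hq1 : (1 : ℝ) ≤ q := by exact_mod_cast hq
  obtain ⟨W, hW⟩ : ∃ W : ℝ, W = 16 * (q : ℝ) ^ 2 * CU * CD * (CQ + 1) := ⟨_, rfl⟩
  have hW0 : 0 < W := by rw [hW]; positivity
  obtain ⟨η, hη⟩ : ∃ η : ℝ, η = min δ (min (1 / x0) (e ^ 2 / (W * x0))) := ⟨_, rfl⟩
  have hη0 : 0 < η := by
    rw [hη]
    exact lt_min hδ0 (lt_min (by positivity) (by positivity))
  have hη1 : η ≤ δ := by rw [hη]; exact min_le_left _ _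
  have hη2 : η ≤ 1 / x0 := by rw [hη]; exact (min_le_right _ _).trans (min_le_left _ _)
  have hη3 : η ≤ e ^ 2 / (W * x0) := by rw [hη]; exact (min_le_right _ _).trans (min_le_right _ _)
  obtain ⟨B1, hB1⟩ := params k K (q + wQ + 2 + ⌈1 / δ⌉₊) CB η (max 1 (1 / δ)) hCB.le hη0
  obtain ⟨Z, hZ⟩ : ∃ Z : ℕ, Z = z ^ k := ⟨_, rfl⟩
  refine ⟨BU + BB + BD + BC + B1 + Z + 2 ^ 60, ?_⟩
  intro B hB T u0 v0 g L hT hTB hL1 hL g2 gL gs gi
  obtain ⟨w, y, M0, hw0, hwy, hM0, hyk, hM0k, hlyw, hlBw, hs, hexp, hEKb, hlw1, hly1, hA0, hlBk⟩ :=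
    hB1 B (by omega)
  obtain ⟨z1, hz1, hz1'⟩ := root_exists B k (by omega)
  obtain ⟨hz12, horb⟩ := hBC B (by omega) z1 hz1 hz1'
  have hB60 : 2 ^ 60 ≤ B := by omega
  have hBr : (2 : ℝ) ^ 60 ≤ B := by exact_mod_cast hB60
  have hBpos : (0 : ℝ) < B := lt_of_lt_of_le (by norm_num) hBr
  have hzk : z ^ k ≤ B := by rw [← hZ]; omega
  have hlogB1 : 1 ≤ Real.log B := (le_max_left _ _).trans hA0
  have hlogBδ : 1 / Real.log B ≤ δ := by
    rw [div_le_iff₀ (by linarith)]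
    have h1 : 1 / δ ≤ Real.log B := (le_max_right _ _).trans hA0
    rw [div_le_iff₀ hδ0] at h1
    linarith
  have hρ1 : (1 : ℝ) < 1 + δ := by linarith
  have hρ2 : (1 : ℝ) + δ ≤ 2 := by linarith
  have hw2 : 2 ≤ w := by omega
  have hy2 : 2 ≤ y := by omega
  -- powers
  have pw : ∀ {n : ℕ} (k' : ℕ), 1 ≤ n → k' ≤ k → n ^ k ≤ B → n ^ k' ≤ B := by
    intro n k' hn hk' h
    exact (Nat.pow_le_pow_right hn hk').trans h
  have hz' : ∀ z' ∈ ({z, z1} : Finset ℕ), 2 ≤ z' ∧ z' ^ k ≤ B := by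
    intro z' hz'
    rw [mem_insert, mem_singleton] at hz'
    rcases hz' with h | h
    · rw [h]; exact ⟨hz, hzk⟩
    · rw [h]; exact ⟨hz12, hz1⟩
  -- facts on g
  have hlog4 : Real.log (4 * (B : ℝ)) ≤ Real.log ((B : ℝ) / 2) + 10 := by
    have h1 : 4 * (B : ℝ) = (B / 2) * 8 := by ring
    rw [h1, Real.log_mul (by positivity) (by norm_num)]
    have h2 : Real.log 8 ≤ 8 - 1 := Real.log_le_sub_one_of_pos (by norm_num)
    linarith
  have gs4 : ∀ s, Real.log (4 * (B : ℝ)) < s → g s = 0 := by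
    intro s hs'
    apply gs
    intro h
    linarith [h.2]
  have gs10 : ∀ s, ¬ (Real.log ((B : ℝ) / 2) ≤ s ∧ s ≤ Real.log ((B : ℝ) / 2) + 10) → g s = 0 := by
    intro s hs'
    apply gs
    intro h
    exact hs' ⟨h.1, h.2.trans hlog4⟩
  -- the orbit bound
  have hO := horb T w y M0 (1 + δ) (ph q u0 v0 T B g) hTB hρ1
    (by
      intro u v
      unfold ph
      split_ifs
      · have := g2 (Real.log v)
        rw [abs_div, abs_of_pos (by norm_num : (0 : ℝ) < 2)]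
        linarith
      · rw [abs_zero]; norm_num)
    (by
      intro u v _ hv
      unfold ph
      rw [if_neg]
      intro h
      omega)
    (by
      intro u v hv
      unfold ph
      split_ifs
      · rw [gs]
        · ring
        · intro h
          have h1 := h.1
          rcases Nat.eq_zero_or_pos v with h0 | h0
          · rw [h0, Nat.cast_zero, Real.log_zero] at h1
            have : 0 < Real.log ((B : ℝ) / 2) := Real.log_pos (by linarith)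
            linarith
          · have hv0 : (0 : ℝ) < v := by exact_mod_cast h0
            have h2 : (v : ℝ) < B / 2 := by
              have : (2 : ℝ) * v < B := by exact_mod_cast hv
              linarith
            have := Real.log_lt_log hv0 h2
            linarith
      · rfl)
  -- the bad part
  have hbad : ∀ z' ∈ ({z, z1} : Finset ℕ), _ := fun z' hz'm =>
    hBd B (by omega) z' w y M0 T (4 * B) (1 + δ) (hz' z' hz'm).1 (pw kB (by have := (hz' z' hz'm).1; omega)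
      (by omega) (hz' z' hz'm).2) hw2 hwy (pw kB (by omega) (by omega) hyk) hM0
      (pw kB hM0 (by omega) hM0k) hT (by nlinarith) (by nlinarith) (by nlinarith) (by linarith) hρ2
  have hbadz := bad_sum (hbad z (by simp)) (hbad z1 (by simp))
  have hw1δ : 1 / (w : ℝ) ≤ δ := by
    have h1 : 1 / δ ≤ w := (Nat.le_ceil _).trans (by exact_mod_cast (by omega : ⌈1 / δ⌉₊ ≤ w))
    have hw0' : (0 : ℝ) < w := by exact_mod_cast (by omega : 0 < w)
    rw [div_le_iff₀ hδ0] at h1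
    rw [div_le_iff₀ hw0']
    linarith
  have hbad2 : 2 * (CB * ((T : ℝ) * (4 * B : ℕ)) * (1 / w + ((1 + δ) - 1) +
      Real.log y ^ CB * Real.exp (-(Real.log M0 / (2 * Real.log y))))) ≤
      24 * CB * δ * ((B : ℝ) * T) := by
    have h1 : 1 / (w : ℝ) + ((1 + δ) - 1) + Real.log y ^ CB * Real.exp (-(Real.log M0 / (2 * Real.log y))) ≤
        3 * δ := by linarith
    have h2 : 0 ≤ CB * ((T : ℝ) * (4 * B : ℕ)) := by positivity
    have h3 := mul_le_mul_of_nonneg_left h1 h2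
    push_cast at h3 ⊢
    linarith
  -- the facts on `M`
  have hMf : ∀ M ∈ (PP w y).divisors.filter (fun M => M ≤ M0), M ∣ PP w y ∧ 1 ≤ M ∧ M ≤ M0 := by
    intro M hM
    rw [mem_filter, Nat.mem_divisors] at hM
    exact ⟨hM.1.1, Nat.pos_of_dvd_of_pos hM.1.1 (PP_pos w y), hM.2⟩
  have hM016 : M0 ^ 16 ≤ B := pw 16 hM0 (by omega) hM0k
  obtain ⟨S, hS⟩ : ∃ S : ℝ, S = (B : ℝ) * T := ⟨_, rfl⟩
  have hS0 : 0 ≤ S := by rw [hS]; positivity
  obtain ⟨l, hl⟩ : ∃ l : ℝ, l = Real.log w ^ (3 / 5 : ℝ) * Real.log y ^ (-(1 / 12) : ℝ) := ⟨_, rfl⟩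
  have hl0 : 0 ≤ l := by rw [hl]; positivity
  obtain ⟨EK, hEKd⟩ : ∃ EK : ℝ, EK = x0 * l := ⟨_, rfl⟩
  have hEK0 : 0 ≤ EK := by rw [hEKd]; positivity
  have hEKs : VW w y ^ 2 * ∑ M ∈ (PP w y).divisors, ((Wn (1 + δ) M).card : ℝ) / (Nat.totient M : ℝ) ≤ EK := by
    refine (hE w y (1 + δ) hw2 hwy hρ1 hρ2).trans (le_of_eq ?_)
    rw [hEKd, hx0, hl, add_sub_cancel_left]
    ring
  have hEKs' : VW w y ^ 2 * ∑ M ∈ (PP w y).divisors, ∑ j ∈ Wn (1 + δ) M, (1 / (Nat.totient M : ℝ)) ≤ EK := by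
    refine le_trans (le_of_eq ?_) hEKs
    congr 1
    refine sum_congr rfl fun M _ => ?_
    rw [sum_const, nsmul_eq_mul]
    ring
  -- AA
  have hAA : ∑ M ∈ (PP w y).divisors.filter (fun M => M ≤ M0), ∑ j ∈ Wn (1 + δ) M,
      AA (NN c z z1) w y (1 + δ) T (4 * B) M j ≤ (8 * CU * EK) * S := by
    have h1 := MJ_sum (w := w) (y := y) (M0 := M0) (ρ := 1 + δ) (R := 8 * CU * ((T : ℝ) * B))
      (f := fun M j => AA (NN c z z1) w y (1 + δ) T (4 * B) M j)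
      (h := fun M _ => 1 / (Nat.totient M : ℝ)) (by positivity) (fun M _ => by positivity)
      (by
        intro M hM j hj
        obtain ⟨hMP, hM1, hMM⟩ := hMf M hM
        obtain ⟨r1, r2, r3, r4, r5, -, -⟩ := rng hB60 hT hTB hM016 hM1 hMM hρ1 hρ2 hj
        refine AA_one hCU hM1 ?_ r1 r2 r3 r4 r5
        intro z' hz'm X Y hX1 hX2 hY1 hY2
        have hX0 : 1 ≤ X := by
          rcases Nat.eq_zero_or_pos X with h | h
          · rw [h] at hX1; simp at hX1; omega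
          · exact h
        have hY0 : 1 ≤ Y := by
          rcases Nat.eq_zero_or_pos Y with h | h
          · rw [h] at hY1; simp at hY1; omega
          · exact h
        have hu := hU B (by omega) z' w y M X 0 Y (hz' z' hz'm).1 (by omega) hwy
          (pw kU (by have := (hz' z' hz'm).1; omega) (by omega) (hz' z' hz'm).2)
          (pw kU (by omega) (by omega) hyk)
          ((Nat.pow_le_pow_left hMM _).trans (pw kU hM0 (by omega) hM0k)) hMP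
          (hX1.trans (Nat.pow_le_pow_right hX0 (by norm_num))) hX2 (Nat.zero_le _)
          (by rw [Nat.sub_zero]; exact hY1.trans (Nat.pow_le_pow_right hY0 (by norm_num))) hY2
        have e0 : Ioc 0 Y = Icc 1 Y := by
          ext t
          rw [mem_Ioc, mem_Icc]
          omega
        rw [e0] at hu
        rw [Nat.cast_zero, sub_zero] at hu
        exact hu)
    refine h1.trans ?_
    calc 8 * CU * ((T : ℝ) * B) * (VW w y ^ 2 * ∑ M ∈ (PP w y).divisors, ∑ j ∈ Wn (1 + δ) M,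
          1 / (Nat.totient M : ℝ)) ≤ 8 * CU * ((T : ℝ) * B) * EK :=
          mul_le_mul_of_nonneg_left hEKs' (by positivity)
      _ = _ := by rw [hS]; ring
  -- DD
  have hLk : L ^ kD ≤ B := by
    calc L ^ kD ≤ L ^ k := pow_le_pow_right₀ hL1 (by omega)
      _ ≤ (Real.log B ^ K) ^ k := pow_le_pow_left₀ (by linarith) hL k
      _ = Real.log B ^ (K * k) := by rw [pow_mul]
      _ ≤ B := hlBk
  have hQs : ∀ α : ℕ, VW w y ^ 2 * ∑ M ∈ (PP w y).divisors, ∑ j ∈ Wn (1 + δ) M, (1 / (Nat.totient M : ℝ)) *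
      ∫ s : ℝ, (∑ m ∈ (Dv (1 + δ) M j).filter (fun m => m ≡ α [MOD q]), g (s - Real.log m)) ^ 2 ≤
      CQ * (1 + Real.log (Real.log y)) := by
    intro α
    refine hQ w y (by omega) hwy hlyw L (Real.log ((B : ℝ) / 2)) (1 + δ) g α hL1 (hL.trans hlBw) hρ1 hρ2
      g2 gL gs10 ?_
    intro s1 s2 hs12
    exact (gi s1 s2 hs12).trans hs
  have hDD : ∑ M ∈ (PP w y).divisors.filter (fun M => M ≤ M0), ∑ j ∈ Wn (1 + δ) M,
      DD (ph q u0 v0 T B g) (NN c z z1) w y (1 + δ) T (4 * B) M j ≤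
      (2 * CD * q * (q * (CQ * (1 + Real.log (Real.log y))) + q * (EK * (1 / Real.log B)))) * S := by
    have h1 := MJ_sum (w := w) (y := y) (M0 := M0) (ρ := 1 + δ) (R := 2 * CD * q * ((T : ℝ) * B))
      (f := fun M j => DD (ph q u0 v0 T B g) (NN c z z1) w y (1 + δ) T (4 * B) M j)
      (h := fun M j => ∑ α ∈ range q, (1 / (Nat.totient M : ℝ)) *
        ((∫ s : ℝ, (∑ m ∈ (Dv (1 + δ) M j).filter (fun m => m ≡ α [MOD q]), g (s - Real.log m)) ^ 2) +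
            1 / Real.log B)) (by positivity)
      (fun M j => sum_nonneg fun α _ => mul_nonneg (by positivity)
        (add_nonneg (integral_nonneg fun s => sq_nonneg _) (by positivity)))
      (by
        intro M hM j hj
        obtain ⟨hMP, hM1, hMM⟩ := hMf M hM
        obtain ⟨r1, r2, r3, r4, r5, -, -⟩ := rng hB60 hT hTB hM016 hM1 hMM hρ1 hρ2 hj
        refine DD_one hCD hq (by omega) hMP hM1 hρ1 (by omega) gs4 ?_ r1 r2 r3 r4 r5
        intro z' hz'm X Y hX1 hX2 hY1 hY2 α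
        refine hD B (by omega) z' w y M X Y _ L (Real.log ((B : ℝ) / 2)) g (hz' z' hz'm).1 (by omega) hwy
          (pw kD (by have := (hz' z' hz'm).1; omega) (by omega) (hz' z' hz'm).2)
          (pw kD (by omega) (by omega) hyk)
          ((Nat.pow_le_pow_left hMM _).trans (pw kD hM0 (by omega) hM0k)) hMP hX1 hX2 hY1 hY2 ?_ ?_
          hL1 hLk g2 gL gs10
        · have hc1 : ((Dv (1 + δ) M j).filter (fun m => m ≡ α [MOD q])).card ≤ M0 := by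
            calc ((Dv (1 + δ) M j).filter (fun m => m ≡ α [MOD q])).card ≤ (Dv (1 + δ) M j).card :=
                  card_filter_le _ _
              _ ≤ M.divisors.card := by unfold Dv; exact card_filter_le _ _
              _ ≤ M := Nat.card_divisors_le_self M
              _ ≤ M0 := hMM
          exact (Nat.pow_le_pow_left hc1 _).trans (pw kD hM0 (by omega) hM0k)
        · intro m hm
          exact Nat.pos_of_dvd_of_pos (Dv_dvd (mem_filter.1 hm).1) hM1)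
    refine h1.trans ?_
    have h2 : VW w y ^ 2 * ∑ M ∈ (PP w y).divisors, ∑ j ∈ Wn (1 + δ) M,
        ∑ α ∈ range q, (1 / (Nat.totient M : ℝ)) *
        ((∫ s : ℝ, (∑ m ∈ (Dv (1 + δ) M j).filter (fun m => m ≡ α [MOD q]), g (s - Real.log m)) ^ 2) +
            1 / Real.log B) ≤
        q * (CQ * (1 + Real.log (Real.log y))) + q * (EK * (1 / Real.log B)) := by
      have e1 : VW w y ^ 2 * ∑ M ∈ (PP w y).divisors, ∑ j ∈ Wn (1 + δ) M,
          ∑ α ∈ range q, (1 / (Nat.totient M : ℝ)) *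
          ((∫ s : ℝ, (∑ m ∈ (Dv (1 + δ) M j).filter (fun m => m ≡ α [MOD q]), g (s - Real.log m)) ^ 2) +
            1 / Real.log B) =
          ∑ α ∈ range q, ((VW w y ^ 2 * ∑ M ∈ (PP w y).divisors, ∑ j ∈ Wn (1 + δ) M,
            (1 / (Nat.totient M : ℝ)) *
            ∫ s : ℝ, (∑ m ∈ (Dv (1 + δ) M j).filter (fun m => m ≡ α [MOD q]), g (s - Real.log m)) ^ 2) +
            (VW w y ^ 2 * ∑ M ∈ (PP w y).divisors, ∑ j ∈ Wn (1 + δ) M, (1 / (Nat.totient M : ℝ))) *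
              (1 / Real.log B)) := by
        simp only [mul_sum, sum_mul, sum_add_distrib, mul_add]
        congr 1
        · rw [sum_comm]
          refine sum_congr rfl fun M _ => ?_
          rw [sum_comm]
        · rw [sum_comm]
          refine sum_congr rfl fun M _ => ?_
          rw [sum_comm]
          refine sum_congr rfl fun j _ => ?_
          refine sum_congr rfl fun α _ => ?_
          ring
      rw [e1]
      calc _ ≤ ∑ α ∈ range q, (CQ * (1 + Real.log (Real.log y)) + EK * (1 / Real.log B)) := by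
            refine sum_le_sum fun α _ => ?_
            exact add_le_add (hQs α) (mul_le_mul_of_nonneg_right hEKs' (by positivity))
        _ = _ := by
            rw [sum_const, card_range, nsmul_eq_mul]
            ring
    calc 2 * CD * q * ((T : ℝ) * B) * (VW w y ^ 2 * ∑ M ∈ (PP w y).divisors, ∑ j ∈ Wn (1 + δ) M,
        ∑ α ∈ range q, (1 / (Nat.totient M : ℝ)) *
        ((∫ s : ℝ, (∑ m ∈ (Dv (1 + δ) M j).filter (fun m => m ≡ α [MOD q]), g (s - Real.log m)) ^ 2) +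
            1 / Real.log B)) ≤ 2 * CD * q * ((T : ℝ) * B) *
          (q * (CQ * (1 + Real.log (Real.log y))) + q * (EK * (1 / Real.log B))) :=
          mul_le_mul_of_nonneg_left h2 (by positivity)
      _ = _ := by rw [hS]; ring
  -- the product
  have hll0 : 0 ≤ Real.log (Real.log y) := Real.log_nonneg hly1
  have had := nums (CE := CE) (δ := δ) hCU hCD hCQ hq1 hx00 hW hη2 hη3 hEK0 hl0 hEKd hll0
    (by rw [hl]; exact hEKb) hlogB1 rfl rfl
  have hcomb := sqrt_comb hAA hDD hS0 (by positivity) had he0.le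
  rw [lhs_eq q u0 v0 T B g (fun u v => EE z ((u : ℤ) * v + c)), abs_mul,
    abs_of_pos (by norm_num : (0 : ℝ) < 2)]
  calc 2 * |∑ u ∈ Icc 1 T, ∑ v ∈ Icc 1 (4 * B), ph q u0 v0 T B g u v * EE z ((u : ℤ) * v + c)|
      ≤ 2 * (κ * k * (24 * CB * δ * ((B : ℝ) * T) + e * S)) := by
        apply mul_le_mul_of_nonneg_left _ (by norm_num)
        refine hO.trans (mul_le_mul_of_nonneg_left ?_ hκk.le)
        exact add_le_add (hbadz.trans hbad2) hcomb
    _ ≤ ε * ((B : ℝ) * T) := by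
        rw [hS, he]
        have h1 : 2 * (κ * k * (24 * CB * δ * ((B : ℝ) * T) + ε / (4 * (κ * k)) * ((B : ℝ) * T))) =
            (48 * (κ * k) * CB * δ + ε / 2) * ((B : ℝ) * T) := by
          field_simp
          ring
        rw [h1]
        apply mul_le_mul_of_nonneg_right _ (by positivity)
        rw [le_div_iff₀ (by positivity)] at hδ2
        linarith

end

end Pool.Agent.N999.QL
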